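import Mathlib

/-! Operators commuting with a transitive group: the spectrum is seen by the base vector. -/

open scoped InnerProductSpace

namespace Pool.Agent.Helper91.DE

variable {E : Type*} [NormedAddCommGroup E] [InnerProductSpace ℂ E]

lemma pow_lower (A : E →ₗ[ℂ] E) (hA : ∀ f g, ⟪A f, g⟫_ℂ = ⟪f, A g⟫_ℂ) (f : E) (k : ℕ) :
    ‖A f‖ ^ k * ‖f‖ ≤ ‖(A ^ k) f‖ * ‖f‖ ^ k := by
  have hstep : ∀ j, ‖(A ^ (j + 1)) f‖ ^ 2 ≤ ‖(A ^ j) f‖ * ‖(A ^ (j + 2)) f‖ := by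
    intro j
    have e1 : (A ^ (j + 1)) f = A ((A ^ j) f) := by rw [pow_succ']; rfl
    have e2 : (A ^ (j + 2)) f = A ((A ^ (j + 1)) f) := by rw [pow_succ' A (j + 1)]; rfl
    have h1 : ⟪(A ^ (j + 1)) f, (A ^ (j + 1)) f⟫_ℂ = ⟪(A ^ j) f, (A ^ (j + 2)) f⟫_ℂ := by
      conv_lhs => rw [e1]
      rw [hA, e2, e1]
    have h2 : ‖⟪(A ^ (j + 1)) f, (A ^ (j + 1)) f⟫_ℂ‖ = ‖(A ^ (j + 1)) f‖ ^ 2 := by
      rw [inner_self_eq_norm_sq_to_K, norm_pow]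
      simp
    rw [← h2, h1]
    exact norm_inner_le_norm _ _
  have hr : ∀ j, ‖A f‖ * ‖(A ^ j) f‖ ≤ ‖f‖ * ‖(A ^ (j + 1)) f‖ := by
    intro j
    induction j with
    | zero =>
      simp only [pow_zero, zero_add, pow_one]
      show ‖A f‖ * ‖f‖ ≤ _
      rw [mul_comm]
    | succ j ih =>
      rcases (norm_nonneg ((A ^ (j + 1)) f)).eq_or_lt with h0 | h0
      · rw [← h0, mul_zero]
        positivity
      have h1 := hstep j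
      have hj : 0 < ‖(A ^ j) f‖ := by
        rcases (norm_nonneg ((A ^ j) f)).eq_or_lt with h | h
        · rw [← h, zero_mul] at h1
          nlinarith
        · exact h
      have h2 : (‖A f‖ * ‖(A ^ (j + 1)) f‖) * ‖(A ^ j) f‖ ≤
          (‖f‖ * ‖(A ^ (j + 1 + 1)) f‖) * ‖(A ^ j) f‖ := by
        calc (‖A f‖ * ‖(A ^ (j + 1)) f‖) * ‖(A ^ j) f‖
            = (‖A f‖ * ‖(A ^ j) f‖) * ‖(A ^ (j + 1)) f‖ := by ring
          _ ≤ (‖f‖ * ‖(A ^ (j + 1)) f‖) * ‖(A ^ (j + 1)) f‖ :=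
            mul_le_mul_of_nonneg_right ih (norm_nonneg _)
          _ = ‖f‖ * ‖(A ^ (j + 1)) f‖ ^ 2 := by ring
          _ ≤ ‖f‖ * (‖(A ^ j) f‖ * ‖(A ^ (j + 2)) f‖) :=
            mul_le_mul_of_nonneg_left h1 (norm_nonneg _)
          _ = _ := by ring
      exact le_of_mul_le_mul_right h2 hj
  induction k with
  | zero => simp
  | succ k ih =>
    calc ‖A f‖ ^ (k + 1) * ‖f‖ = ‖A f‖ * (‖A f‖ ^ k * ‖f‖) := by ring
      _ ≤ ‖A f‖ * (‖(A ^ k) f‖ * ‖f‖ ^ k) := mul_le_mul_of_nonneg_left ih (norm_nonneg _)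
      _ = (‖A f‖ * ‖(A ^ k) f‖) * ‖f‖ ^ k := by ring
      _ ≤ (‖f‖ * ‖(A ^ (k + 1)) f‖) * ‖f‖ ^ k :=
        mul_le_mul_of_nonneg_right (hr k) (by positivity)
      _ = _ := by ring

section

variable {I : Type*} [Fintype I] (S S' : I → E →ₗ[ℂ] E)
    (hadj : ∀ i f g, ⟪S i f, g⟫_ℂ = ⟪f, S' i g⟫_ℂ)

/-- the sum of the S'S -/
noncomputable def bigB : E →ₗ[ℂ] E := ∑ i, S' i ∘ₗ S i

lemma bigB_apply (f : E) : bigB S S' f = ∑ i, S' i (S i f) := by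
  unfold bigB
  rw [LinearMap.sum_apply]
  rfl

omit [Fintype I] in
include hadj in
lemma hadj' (i : I) (f g : E) : ⟪S' i f, g⟫_ℂ = ⟪f, S i g⟫_ℂ := by
  rw [← inner_conj_symm, ← hadj, inner_conj_symm]

include hadj in
lemma inner_bigB (f g : E) : ⟪bigB S S' f, g⟫_ℂ = ∑ i, ⟪S i f, S i g⟫_ℂ := by
  rw [bigB_apply, sum_inner]
  exact Finset.sum_congr rfl fun i _ => hadj' S S' hadj i _ _

include hadj in
lemma bigB_symm (f g : E) : ⟪bigB S S' f, g⟫_ℂ = ⟪f, bigB S S' g⟫_ℂ := by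
  rw [inner_bigB S S' hadj, bigB_apply, inner_sum]
  exact Finset.sum_congr rfl fun i _ => hadj i _ _

include hadj in
lemma bigB_norm (M : ℝ) (hM : 0 < M) (hbd : ∀ f, ∑ i, ‖S i f‖ ^ 2 ≤ M * ‖f‖ ^ 2) (f : E) :
    ‖bigB S S' f‖ ^ 2 ≤ M * ∑ i, ‖S i f‖ ^ 2 := by
  set b := bigB S S' f with hb
  have h1 : ‖b‖ ^ 2 = ‖⟪b, b⟫_ℂ‖ := by
    rw [inner_self_eq_norm_sq_to_K, norm_pow]
    simp
  have h2 : ‖b‖ ^ 2 ≤ ∑ i, ‖S i f‖ * ‖S i b‖ := by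
    rw [h1]
    conv_lhs => rw [hb, inner_bigB S S' hadj, ← hb]
    exact (norm_sum_le _ _).trans (Finset.sum_le_sum fun i _ => norm_inner_le_norm _ _)
  have h3 : (∑ i, ‖S i f‖ * ‖S i b‖) ^ 2 ≤ (∑ i, ‖S i f‖ ^ 2) * ∑ i, ‖S i b‖ ^ 2 :=
    Finset.sum_mul_sq_le_sq_mul_sq _ _ _
  have h4 : (‖b‖ ^ 2) ^ 2 ≤ (∑ i, ‖S i f‖ ^ 2) * (M * ‖b‖ ^ 2) :=
    (pow_le_pow_left₀ (by positivity) h2 2).trans
      (h3.trans (mul_le_mul_of_nonneg_left (hbd b) (Finset.sum_nonneg fun i _ => by positivity)))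
  rcases (sq_nonneg ‖b‖).eq_or_lt with h0 | h0
  · rw [← h0]
    exact mul_nonneg hM.le (Finset.sum_nonneg fun i _ => by positivity)
  · have h5 : ‖b‖ ^ 2 * ‖b‖ ^ 2 ≤ (M * ∑ i, ‖S i f‖ ^ 2) * ‖b‖ ^ 2 := by
      calc ‖b‖ ^ 2 * ‖b‖ ^ 2 = (‖b‖ ^ 2) ^ 2 := by ring
        _ ≤ (∑ i, ‖S i f‖ ^ 2) * (M * ‖b‖ ^ 2) := h4
        _ = _ := by ring
    exact le_of_mul_le_mul_right h5 h0

/-- the operator 1 - B/M -/
noncomputable def bigA (M : ℝ) : E →ₗ[ℂ] E := LinearMap.id - ((1 / M : ℝ) : ℂ) • bigB S S'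

lemma bigA_apply (M : ℝ) (f : E) : bigA S S' M f = f - ((1 / M : ℝ) : ℂ) • bigB S S' f := rfl

include hadj in
lemma bigA_symm (M : ℝ) (f g : E) : ⟪bigA S S' M f, g⟫_ℂ = ⟪f, bigA S S' M g⟫_ℂ := by
  rw [bigA_apply, bigA_apply, inner_sub_left, inner_sub_right, inner_smul_left, inner_smul_right,
    bigB_symm S S' hadj, Complex.conj_ofReal]

include hadj in
lemma bigA_upper (M : ℝ) (hM : 0 < M) (hbd : ∀ f, ∑ i, ‖S i f‖ ^ 2 ≤ M * ‖f‖ ^ 2) (f : E) :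
    ‖bigA S S' M f‖ ^ 2 ≤ ‖f‖ ^ 2 - 1 / M * ∑ i, ‖S i f‖ ^ 2 := by
  have h1 := bigB_norm S S' hadj M hM hbd f
  have h2 : ‖bigA S S' M f‖ ^ 2 = ‖f‖ ^ 2 - 2 * (1 / M * ∑ i, ‖S i f‖ ^ 2) +
      (1 / M) ^ 2 * ‖bigB S S' f‖ ^ 2 := by
    rw [bigA_apply, @norm_sub_sq ℂ]
    have e1 : ⟪f, ((1 / M : ℝ) : ℂ) • bigB S S' f⟫_ℂ = ((1 / M * ∑ i, ‖S i f‖ ^ 2 : ℝ) : ℂ) := by
      rw [inner_smul_right, ← bigB_symm S S' hadj, inner_bigB S S' hadj]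
      push_cast
      congr 1
      refine Finset.sum_congr rfl fun i _ => ?_
      rw [inner_self_eq_norm_sq_to_K]
      rfl
    rw [e1]
    have e2 : ‖((1 / M : ℝ) : ℂ) • bigB S S' f‖ ^ 2 = (1 / M) ^ 2 * ‖bigB S S' f‖ ^ 2 := by
      rw [norm_smul, mul_pow, Complex.norm_real, Real.norm_of_nonneg (by positivity)]
    rw [e2]
    congr 3
  rw [h2]
  have h3 : (1 / M) ^ 2 * ‖bigB S S' f‖ ^ 2 ≤ 1 / M * ∑ i, ‖S i f‖ ^ 2 := by
    calc (1 / M) ^ 2 * ‖bigB S S' f‖ ^ 2 ≤ (1 / M) ^ 2 * (M * ∑ i, ‖S i f‖ ^ 2) :=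
          mul_le_mul_of_nonneg_left h1 (by positivity)
      _ = _ := by field_simp
  linarith

include hadj in
theorem abs_radial (M : ℝ) (hM : 0 < M) (hbd : ∀ f, ∑ i, ‖S i f‖ ^ 2 ≤ M * ‖f‖ ^ 2)
    (Rad : Submodule ℂ E) (hRad : ∀ f ∈ Rad, bigB S S' f ∈ Rad) {ι : Type*} (δ : ι → E) (δ₀ : E)
    (hδ₀ : δ₀ ∈ Rad) (hδ : ∀ a, ∃ τ : E →ₗ[ℂ] E, (∀ f, ‖τ f‖ = ‖f‖) ∧
      (∀ f, bigB S S' (τ f) = τ (bigB S S' f)) ∧ δ a = τ δ₀)
    (hspan : Submodule.span ℂ (Set.range δ) = ⊤) (ε : ℝ) (hε : 0 < ε)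
    (hlow : ∀ f ∈ Rad, ε ^ 2 * ‖f‖ ^ 2 ≤ ∑ i, ‖S i f‖ ^ 2) (f : E) :
    ε ^ 4 / (4 * M) * ‖f‖ ^ 2 ≤ ∑ i, ‖S i f‖ ^ 2 := by
  by_contra hcon
  rw [not_le] at hcon
  set A := bigA S S' M with hA
  have hf0 : 0 < ‖f‖ := by
    rcases (norm_nonneg f).eq_or_lt with h | h
    · exfalso
      rw [← h] at hcon
      have : 0 ≤ ∑ i, ‖S i f‖ ^ 2 := Finset.sum_nonneg fun i _ => by positivity
      simp only [ne_eq, OfNat.ofNat_ne_zero, not_false_eq_true, zero_pow, mul_zero] at hcon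
      linarith
    · exact h
  -- the base vector is not zero
  have hδ0 : δ₀ ≠ 0 := by
    intro h
    have h1 : ∀ a, δ a = 0 := by
      intro a
      obtain ⟨τ, _, _, h3⟩ := hδ a
      rw [h3, h, map_zero]
    have h2 : (⊤ : Submodule ℂ E) = ⊥ := by
      rw [← hspan, Submodule.span_eq_bot]
      rintro _ ⟨a, rfl⟩
      exact h1 a
    have h3 : f ∈ (⊥ : Submodule ℂ E) := by rw [← h2]; trivial
    rw [Submodule.mem_bot] at h3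
    rw [h3, norm_zero] at hf0
    exact lt_irrefl _ hf0
  have hδpos : 0 < ‖δ₀‖ := norm_pos_iff.2 hδ0
  set s := ε ^ 2 / (2 * M) with hs
  have hs0 : 0 < s := by positivity
  have h2s : 0 ≤ 1 - 2 * s := by
    have h1 := (hlow δ₀ hδ₀).trans (hbd δ₀)
    have h2 : ε ^ 2 ≤ M := le_of_mul_le_mul_right h1 (by positivity)
    have h3 : 2 * s = ε ^ 2 / M := by rw [hs]; field_simp
    rw [h3, sub_nonneg, div_le_one hM]
    exact h2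
  -- upper bound
  have hup : ∀ g ∈ Rad, ‖A g‖ ^ 2 ≤ (1 - 2 * s) * ‖g‖ ^ 2 := by
    intro g hg
    have h1 := bigA_upper S S' hadj M hM hbd g
    have h2 := hlow g hg
    have h3 : 1 / M * (ε ^ 2 * ‖g‖ ^ 2) ≤ 1 / M * ∑ i, ‖S i g‖ ^ 2 :=
      mul_le_mul_of_nonneg_left h2 (by positivity)
    have h4 : 1 / M * (ε ^ 2 * ‖g‖ ^ 2) = 2 * s * ‖g‖ ^ 2 := by rw [hs]; field_simp
    nlinarith
  have hRadA : ∀ k, (A ^ k) δ₀ ∈ Rad := by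
    intro k
    induction k with
    | zero => exact hδ₀
    | succ k ih =>
      rw [pow_succ']
      show A ((A ^ k) δ₀) ∈ Rad
      rw [hA, bigA_apply]
      exact Rad.sub_mem ih (Rad.smul_mem _ (hRad _ ih))
  have hpow : ∀ k, ‖(A ^ k) δ₀‖ ^ 2 ≤ (1 - 2 * s) ^ k * ‖δ₀‖ ^ 2 := by
    intro k
    induction k with
    | zero => simp
    | succ k ih =>
      rw [pow_succ' A]
      show ‖A ((A ^ k) δ₀)‖ ^ 2 ≤ _
      calc ‖A ((A ^ k) δ₀)‖ ^ 2 ≤ (1 - 2 * s) * ‖(A ^ k) δ₀‖ ^ 2 := hup _ (hRadA k)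
        _ ≤ (1 - 2 * s) * ((1 - 2 * s) ^ k * ‖δ₀‖ ^ 2) := mul_le_mul_of_nonneg_left ih h2s
        _ = _ := by ring
  set r := Real.sqrt (1 - 2 * s) with hr
  have hr0 : 0 ≤ r := Real.sqrt_nonneg _
  have hr2 : r ^ 2 = 1 - 2 * s := Real.sq_sqrt h2s
  have hpow' : ∀ k, ‖(A ^ k) δ₀‖ ≤ r ^ k * ‖δ₀‖ := by
    intro k
    refine (pow_le_pow_iff_left₀ (norm_nonneg _) (by positivity) two_ne_zero).1 ?_
    rw [mul_pow, ← pow_mul, mul_comm k 2, pow_mul, hr2]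
    exact hpow k
  have hδk : ∀ a k, ‖(A ^ k) (δ a)‖ ≤ r ^ k * ‖δ₀‖ := by
    intro a k
    obtain ⟨τ, h1, h2, h3⟩ := hδ a
    have h4 : ∀ k g, (A ^ k) (τ g) = τ ((A ^ k) g) := by
      intro k
      induction k with
      | zero => intro g; rfl
      | succ k ih =>
        intro g
        rw [pow_succ']
        show A ((A ^ k) (τ g)) = τ (A ((A ^ k) g))
        rw [ih, hA, bigA_apply, bigA_apply, map_sub, map_smul, h2]
    rw [h3, h4, h1]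
    exact hpow' k
  -- f is a combination
  have hC : ∀ g ∈ Submodule.span ℂ (Set.range δ), ∃ C : ℝ, ∀ k, ‖(A ^ k) g‖ ≤ C * r ^ k := by
    intro g hg
    induction hg using Submodule.span_induction with
    | mem x hx =>
      obtain ⟨a, rfl⟩ := hx
      exact ⟨‖δ₀‖, fun k => (hδk a k).trans (le_of_eq (mul_comm _ _))⟩
    | zero => exact ⟨0, fun k => by rw [map_zero, norm_zero, zero_mul]⟩
    | add x y _ _ hx hy =>
      obtain ⟨C, hC⟩ := hx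
      obtain ⟨C', hC'⟩ := hy
      refine ⟨C + C', fun k => ?_⟩
      rw [map_add, add_mul]
      exact (norm_add_le _ _).trans (add_le_add (hC k) (hC' k))
    | smul c x _ hx =>
      obtain ⟨C, hC⟩ := hx
      refine ⟨‖c‖ * C, fun k => ?_⟩
      rw [map_smul, norm_smul, mul_assoc]
      exact mul_le_mul_of_nonneg_left (hC k) (norm_nonneg _)
  obtain ⟨C, hC⟩ := hC f (by rw [hspan]; trivial)
  have hlt : r < 1 - s := by
    have h1 : s ≤ 1 / 2 := by linarith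
    refine (pow_lt_pow_iff_left₀ hr0 (by linarith) two_ne_zero).1 ?_
    rw [hr2]
    nlinarith [mul_pos hs0 hs0]
  have h1s : 0 < 1 - s := lt_of_le_of_lt hr0 hlt
  have hAf : (1 - s) * ‖f‖ ≤ ‖A f‖ := by
    have h1 := bigB_norm S S' hadj M hM hbd f
    have h2 : ‖bigB S S' f‖ ^ 2 ≤ (ε ^ 2 / 2 * ‖f‖) ^ 2 := by
      calc ‖bigB S S' f‖ ^ 2 ≤ M * ∑ i, ‖S i f‖ ^ 2 := h1
        _ ≤ M * (ε ^ 4 / (4 * M) * ‖f‖ ^ 2) := mul_le_mul_of_nonneg_left hcon.le hM.le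
        _ = _ := by field_simp; ring
    have h3 : ‖bigB S S' f‖ ≤ ε ^ 2 / 2 * ‖f‖ :=
      (pow_le_pow_iff_left₀ (norm_nonneg _) (by positivity) two_ne_zero).1 h2
    have h4 : ‖((1 / M : ℝ) : ℂ) • bigB S S' f‖ ≤ s * ‖f‖ := by
      rw [norm_smul, Complex.norm_real, Real.norm_of_nonneg (by positivity)]
      calc 1 / M * ‖bigB S S' f‖ ≤ 1 / M * (ε ^ 2 / 2 * ‖f‖) :=
            mul_le_mul_of_nonneg_left h3 (by positivity)
        _ = s * ‖f‖ := by rw [hs]; field_simp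
    have h5 : ‖f‖ - ‖((1 / M : ℝ) : ℂ) • bigB S S' f‖ ≤ ‖A f‖ := by
      rw [hA, bigA_apply]
      exact norm_sub_norm_le _ _
    linarith
  have hlow2 : ∀ k, (1 - s) ^ k * ‖f‖ ≤ C * r ^ k := by
    intro k
    have h1 := pow_lower A (bigA_symm S S' hadj M) f k
    have h2 : ((1 - s) * ‖f‖) ^ k * ‖f‖ ≤ ‖(A ^ k) f‖ * ‖f‖ ^ k :=
      (mul_le_mul_of_nonneg_right (pow_le_pow_left₀ (by positivity) hAf k)
        (norm_nonneg _)).trans h1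
    rw [mul_pow] at h2
    have h3 : ((1 - s) ^ k * ‖f‖) * ‖f‖ ^ k ≤ ‖(A ^ k) f‖ * ‖f‖ ^ k := by
      calc ((1 - s) ^ k * ‖f‖) * ‖f‖ ^ k = (1 - s) ^ k * ‖f‖ ^ k * ‖f‖ := by ring
        _ ≤ _ := h2
    exact (le_of_mul_le_mul_right h3 (by positivity)).trans (hC k)
  have hCpos : 0 < C := by
    have := hlow2 0
    simp only [pow_zero, one_mul, mul_one] at this
    linarith
  have hq : r / (1 - s) < 1 := (div_lt_one h1s).2 hlt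
  obtain ⟨k, hk⟩ := exists_pow_lt_of_lt_one (div_pos hf0 hCpos) hq
  have h1 := hlow2 k
  rw [div_pow, div_lt_div_iff₀ (by positivity) hCpos] at hk
  linarith

end

end Pool.Agent.Helper91.DE
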