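import Mathlib

/-! The pre-Hilbert space of finitely supported functions. -/

open scoped InnerProductSpace

namespace Pool.Agent.Helper91.DE

variable {ι : Type}

/-- finitely supported functions -/
def FS (ι : Type) : Type := ι →₀ ℂ

noncomputable instance : AddCommGroup (FS ι) := inferInstanceAs (AddCommGroup (ι →₀ ℂ))
noncomputable instance : Module ℂ (FS ι) := inferInstanceAs (Module ℂ (ι →₀ ℂ))

/-- the underlying finitely supported function -/
noncomputable def FS.toF : FS ι ≃ₗ[ℂ] (ι →₀ ℂ) := LinearEquiv.refl ℂ (ι →₀ ℂ)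

lemma FS.toF_add (f g : FS ι) (i : ι) : FS.toF (f + g) i = FS.toF f i + FS.toF g i := rfl
lemma FS.toF_smul (c : ℂ) (f : FS ι) (i : ι) : FS.toF (c • f) i = c * FS.toF f i := rfl

/-- the inner product -/
noncomputable def ip (f g : FS ι) : ℂ :=
  ∑ i ∈ (FS.toF f).support, (starRingEnd ℂ) (FS.toF f i) * FS.toF g i

lemma ip_eq (f g : FS ι) (s : Finset ι) (hs : (FS.toF f).support ⊆ s) :
    ip f g = ∑ i ∈ s, (starRingEnd ℂ) (FS.toF f i) * FS.toF g i := by
  unfold ip
  refine Finset.sum_subset hs fun i _ hi => ?_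
  rw [Finsupp.notMem_support_iff.1 hi, map_zero, zero_mul]

lemma ip_eq' (f g : FS ι) (s : Finset ι) (hs : (FS.toF g).support ⊆ s) :
    ip f g = ∑ i ∈ s, (starRingEnd ℂ) (FS.toF f i) * FS.toF g i := by
  classical
  rw [ip_eq f g ((FS.toF f).support ∪ s) Finset.subset_union_left]
  symm
  refine Finset.sum_subset Finset.subset_union_right fun i _ hi => ?_
  have h : i ∉ (FS.toF g).support := fun h => hi (hs h)
  rw [Finsupp.notMem_support_iff.1 h, mul_zero]

/-- the core -/
noncomputable def core : InnerProductSpace.Core ℂ (FS ι) where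
  inner := ip
  conj_inner_symm f g := by
    classical
    rw [ip_eq g f ((FS.toF f).support ∪ (FS.toF g).support) Finset.subset_union_right,
      ip_eq f g ((FS.toF f).support ∪ (FS.toF g).support) Finset.subset_union_left, map_sum]
    refine Finset.sum_congr rfl fun i _ => ?_
    rw [map_mul, Complex.conj_conj, mul_comm]
  re_inner_nonneg f := by
    unfold ip
    rw [map_sum]
    refine Finset.sum_nonneg fun i _ => ?_
    rw [Complex.conj_mul']
    have : RCLike.re ((‖FS.toF f i‖ : ℂ) ^ 2) = ‖FS.toF f i‖ ^ 2 := by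
      rw [← Complex.ofReal_pow]
      rfl
    rw [this]
    positivity
  add_left f g h := by
    classical
    set s := (FS.toF f).support ∪ (FS.toF g).support ∪ (FS.toF (f + g)).support with hs
    rw [ip_eq f h s (by
        intro i hi
        simp only [hs, Finset.mem_union]
        exact Or.inl (Or.inl hi)),
      ip_eq g h s (by
        intro i hi
        simp only [hs, Finset.mem_union]
        exact Or.inl (Or.inr hi)),
      ip_eq (f + g) h s (by
        intro i hi
        simp only [hs, Finset.mem_union]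
        exact Or.inr hi), ← Finset.sum_add_distrib]
    refine Finset.sum_congr rfl fun i _ => ?_
    rw [FS.toF_add, map_add, add_mul]
  smul_left f g c := by
    classical
    set s := (FS.toF f).support ∪ (FS.toF (c • f)).support with hs
    rw [ip_eq f g s Finset.subset_union_left, ip_eq (c • f) g s Finset.subset_union_right,
      Finset.mul_sum]
    refine Finset.sum_congr rfl fun i _ => ?_
    rw [FS.toF_smul, map_mul, mul_assoc]
  definite f hf := by
    have hf' : ip f f = 0 := hf
    have h1 : ∑ i ∈ (FS.toF f).support, ‖FS.toF f i‖ ^ 2 = 0 := by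
      have h2 : ((∑ i ∈ (FS.toF f).support, ‖FS.toF f i‖ ^ 2 : ℝ) : ℂ) = 0 := by
        rw [← hf']
        unfold ip
        push_cast
        refine Finset.sum_congr rfl fun i _ => ?_
        rw [Complex.conj_mul']
      exact_mod_cast h2
    have h2 : FS.toF f = 0 := by
      ext i
      by_contra hi
      have h3 : i ∈ (FS.toF f).support := Finsupp.mem_support_iff.2 hi
      have h4 := (Finset.sum_eq_zero_iff_of_nonneg (fun i _ => by positivity)).1 h1 i h3
      apply hi
      have h5 : ‖FS.toF f i‖ = 0 := by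
        exact pow_eq_zero_iff (two_ne_zero) |>.1 h4
      simpa using h5
    exact h2

noncomputable instance : NormedAddCommGroup (FS ι) :=
  @InnerProductSpace.Core.toNormedAddCommGroup ℂ (FS ι) _ _ _ core

noncomputable instance : InnerProductSpace ℂ (FS ι) := InnerProductSpace.ofCore core.toCore

lemma inner_eq (f g : FS ι) : ⟪f, g⟫_ℂ = ip f g := rfl

lemma norm_sq_eq (f : FS ι) (s : Finset ι) (hs : (FS.toF f).support ⊆ s) :
    ‖f‖ ^ 2 = ∑ i ∈ s, ‖FS.toF f i‖ ^ 2 := by
  have h1 : ⟪f, f⟫_ℂ = ((∑ i ∈ s, ‖FS.toF f i‖ ^ 2 : ℝ) : ℂ) := by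
    rw [inner_eq, ip_eq f f s hs]
    push_cast
    refine Finset.sum_congr rfl fun i _ => ?_
    rw [Complex.conj_mul']
  rw [inner_self_eq_norm_sq_to_K] at h1
  have h2 : (((‖f‖ ^ 2 : ℝ)) : ℂ) = ((∑ i ∈ s, ‖FS.toF f i‖ ^ 2 : ℝ) : ℂ) := by
    rw [← h1]
    push_cast
    rfl
  exact_mod_cast h2

end Pool.Agent.Helper91.DE
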