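import Pool.Agent.Helper91.DE.Abs
import Pool.Agent.Helper91.DE.Fin
import Pool.Agent.Helper80.AT.Spec

/-! Convolution operators on finitely supported functions on Γ/K_x. -/

open scoped InnerProductSpace ENNReal NNReal
open Pool.Agent.Helper80.AT

namespace Pool.Agent.Helper91.DE

variable {F : Type} [Field F] {X : Places F} {N : ℕ} {Γ : Subgroup (GL (Fin N) F)} {x : X.V}

lemma row_fin (h : HeckeFn X Γ x) (a : Γ ⧸ X.K Γ x) :
    {b : Γ ⧸ X.K Γ x | h.h (a.out⁻¹ * b.out) ≠ 0}.Finite := by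
  refine ((h.finL).image (fun c => a.out • c)).subset ?_
  intro b hb
  refine ⟨a.out⁻¹ • b, ?_, smul_inv_smul _ _⟩
  rw [Set.mem_ofPred_eq, ← h_left h a.out, smul_inv_smul]
  exact hb

lemma col_fin (h : HeckeFn X Γ x) (b : Γ ⧸ X.K Γ x) :
    {a : Γ ⧸ X.K Γ x | h.h (a.out⁻¹ * b.out) ≠ 0}.Finite := by
  refine ((h.finR).image (fun c => b.out • c)).subset ?_
  intro a ha
  refine ⟨b.out⁻¹ • a, ?_, smul_inv_smul _ _⟩
  rw [Set.mem_ofPred_eq, ← h_right h b.out, smul_inv_smul]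
  exact ha

/-- a column of the convolution kernel -/
noncomputable def col (h : HeckeFn X Γ x) (b : Γ ⧸ X.K Γ x) : (Γ ⧸ X.K Γ x) →₀ ℂ :=
  Finsupp.ofSupportFinite (fun a => h.h (a.out⁻¹ * b.out)) (col_fin h b)

/-- the convolution operator -/
noncomputable def cop (h : HeckeFn X Γ x) : FS (Γ ⧸ X.K Γ x) →ₗ[ℂ] FS (Γ ⧸ X.K Γ x) :=
  FS.toF.symm.toLinearMap ∘ₗ Finsupp.linearCombination ℂ (col h) ∘ₗ FS.toF.toLinearMap

lemma cop_apply (h : HeckeFn X Γ x) (f : FS (Γ ⧸ X.K Γ x)) (a : Γ ⧸ X.K Γ x) :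
    FS.toF (cop h f) a = ∑ b ∈ (FS.toF f).support, h.h (a.out⁻¹ * b.out) * FS.toF f b := by
  show Finsupp.linearCombination ℂ (col h) (FS.toF f) a = _
  rw [Finsupp.linearCombination_apply, Finsupp.sum, Finsupp.finsetSum_apply]
  refine Finset.sum_congr rfl fun b _ => ?_
  rw [Finsupp.smul_apply, smul_eq_mul, mul_comm]
  rfl

lemma cop_conv (h : HeckeFn X Γ x) (f : FS (Γ ⧸ X.K Γ x)) (a : Γ ⧸ X.K Γ x) :
    FS.toF (cop h f) a = conv h (FS.toF f) a := by
  rw [cop_apply]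
  unfold conv
  rw [finsum_eq_sum_of_support_subset]
  intro b hb
  simp only [Function.mem_support, ne_eq, mul_eq_zero, not_or] at hb
  simpa using hb.2

lemma cop_adj (h : HeckeFn X Γ x) (f g : FS (Γ ⧸ X.K Γ x)) :
    ⟪cop h f, g⟫_ℂ = ⟪f, cop h.star g⟫_ℂ := by
  rw [inner_eq, inner_eq, ip_eq' (cop h f) g _ (Finset.Subset.refl _), ip]
  simp only [cop_apply, map_sum, Finset.sum_mul, Finset.mul_sum, map_mul]
  rw [Finset.sum_comm]
  refine Finset.sum_congr rfl fun b _ => Finset.sum_congr rfl fun a _ => ?_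
  have e : h.star.h (b.out⁻¹ * a.out) = (starRingEnd ℂ) (h.h (a.out⁻¹ * b.out)) := by
    show (starRingEnd ℂ) (h.h (b.out⁻¹ * a.out)⁻¹) = _
    rw [mul_inv_rev, inv_inv]
  rw [e]
  ring

lemma cop_norm (h : HeckeFn X Γ x) (f : FS (Γ ⧸ X.K Γ x)) : ‖cop h f‖ ≤ h.norm * ‖f‖ := by
  refine (pow_le_pow_iff_left₀ (norm_nonneg _) (by positivity) two_ne_zero).1 ?_
  rw [mul_pow, norm_sq_eq (cop h f) _ (Finset.Subset.refl _),
    norm_sq_eq f _ (Finset.Subset.refl _)]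
  simp only [cop_apply]
  exact h.norm_le (FS.toF f) _

/-- translation -/
noncomputable def tr (g : Γ) : FS (Γ ⧸ X.K Γ x) →ₗ[ℂ] FS (Γ ⧸ X.K Γ x) :=
  FS.toF.symm.toLinearMap ∘ₗ
    (Finsupp.domLCongr (M := ℂ) (R := ℂ) (MulAction.toPerm g)).toLinearMap ∘ₗ FS.toF.toLinearMap

lemma tr_apply (g : Γ) (f : FS (Γ ⧸ X.K Γ x)) (a : Γ ⧸ X.K Γ x) :
    FS.toF (tr g f) a = FS.toF f (g⁻¹ • a) := by
  show (Finsupp.domLCongr (M := ℂ) (R := ℂ) (MulAction.toPerm g)) (FS.toF f) a = _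
  rw [Finsupp.domLCongr_apply, Finsupp.domCongr_apply, Finsupp.equivMapDomain_apply]
  rfl

lemma FS.ext {ι : Type} {f g : FS ι} (h : ∀ a, FS.toF f a = FS.toF g a) : f = g :=
  Finsupp.ext h

lemma tr_norm (g : Γ) (f : FS (Γ ⧸ X.K Γ x)) : ‖tr g f‖ = ‖f‖ := by
  classical
  have h1 : ‖tr g f‖ ^ 2 = ‖f‖ ^ 2 := by
    rw [norm_sq_eq (tr g f) ((FS.toF f).support.image fun a => g • a) (by
        intro a ha
        rw [Finsupp.mem_support_iff, tr_apply] at ha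
        exact Finset.mem_image.2 ⟨g⁻¹ • a, Finsupp.mem_support_iff.2 ha, smul_inv_smul _ _⟩),
      norm_sq_eq f _ (Finset.Subset.refl _), Finset.sum_image (by
        intro a _ b _ hab
        exact smul_left_cancel g hab)]
    refine Finset.sum_congr rfl fun a _ => ?_
    rw [tr_apply, inv_smul_smul]
  exact (pow_left_inj₀ (norm_nonneg _) (norm_nonneg _) two_ne_zero).1 h1

lemma cop_tr (h : HeckeFn X Γ x) (g : Γ) (f : FS (Γ ⧸ X.K Γ x)) :
    cop h (tr g f) = tr g (cop h f) := by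
  apply FS.ext
  intro a
  rw [tr_apply, cop_conv, cop_conv]
  unfold conv
  rw [← finsum_comp_equiv (MulAction.toPerm g)]
  refine finsum_congr fun b => ?_
  rw [MulAction.toPerm_apply, tr_apply, inv_smul_smul]
  congr 1
  have e := h_smul h g (g⁻¹ • a) b
  rw [smul_inv_smul] at e
  exact e

/-- the shifted operators -/
noncomputable def sop (h : HeckeFn X Γ x) (c : ℂ) : FS (Γ ⧸ X.K Γ x) →ₗ[ℂ] FS (Γ ⧸ X.K Γ x) :=
  cop h - c • LinearMap.id

lemma sop_apply (h : HeckeFn X Γ x) (c : ℂ) (f : FS (Γ ⧸ X.K Γ x)) :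
    sop h c f = cop h f - c • f := rfl

lemma sop_val (h : HeckeFn X Γ x) (c : ℂ) (f : FS (Γ ⧸ X.K Γ x)) (a : Γ ⧸ X.K Γ x) :
    FS.toF (sop h c f) a = conv h (FS.toF f) a - c * FS.toF f a := by
  rw [← cop_conv]
  rfl

lemma sop_adj (h : HeckeFn X Γ x) (c : ℂ) (f g : FS (Γ ⧸ X.K Γ x)) :
    ⟪sop h c f, g⟫_ℂ = ⟪f, sop h.star ((starRingEnd ℂ) c) g⟫_ℂ := by
  rw [sop_apply, sop_apply, inner_sub_left, inner_sub_right, cop_adj, inner_smul_left,
    inner_smul_right]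

lemma sop_norm (h : HeckeFn X Γ x) (c : ℂ) (f : FS (Γ ⧸ X.K Γ x)) :
    ‖sop h c f‖ ≤ (h.norm + ‖c‖) * ‖f‖ := by
  rw [sop_apply]
  refine (norm_sub_le _ _).trans ?_
  rw [norm_smul, add_mul]
  exact add_le_add_left (cop_norm h f) _

lemma sop_tr (h : HeckeFn X Γ x) (c : ℂ) (g : Γ) (f : FS (Γ ⧸ X.K Γ x)) :
    sop h c (tr g f) = tr g (sop h c f) := by
  rw [sop_apply, sop_apply, cop_tr, map_sub, map_smul]

/-- the K-invariant functions -/
noncomputable def radial (Γ : Subgroup (GL (Fin N) F)) (x : X.V) :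
    Submodule ℂ (FS (Γ ⧸ X.K Γ x)) where
  carrier := {f | ∀ k ∈ X.K Γ x, tr k f = f}
  add_mem' := by
    intro f g hf hg k hk
    rw [map_add, hf k hk, hg k hk]
  zero_mem' := by
    intro k _
    rw [map_zero]
  smul_mem' := by
    intro c f hf k hk
    rw [map_smul, hf k hk]

lemma mem_radial (f : FS (Γ ⧸ X.K Γ x)) : f ∈ radial Γ x ↔ ∀ k ∈ X.K Γ x, tr k f = f := Iff.rfl

/-- the indicator function of a coset -/
noncomputable def single (a : Γ ⧸ X.K Γ x) : FS (Γ ⧸ X.K Γ x) :=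
  FS.toF.symm (Finsupp.single a 1)

lemma single_span : Submodule.span ℂ (Set.range (single : Γ ⧸ X.K Γ x → _)) = ⊤ := by
  rw [Submodule.eq_top_iff']
  intro f
  have h : ∀ f : (Γ ⧸ X.K Γ x) →₀ ℂ, FS.toF.symm f ∈
      Submodule.span ℂ (Set.range (single : Γ ⧸ X.K Γ x → _)) := by
    intro f
    induction f using Finsupp.induction_linear with
    | zero => rw [map_zero]; exact Submodule.zero_mem _
    | add f g hf hg => rw [map_add]; exact Submodule.add_mem _ hf hg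
    | single a c =>
      have e : FS.toF.symm (Finsupp.single a c) = c • single a := by
        unfold single
        rw [← map_smul, Finsupp.smul_single, smul_eq_mul, mul_one]
      rw [e]
      exact Submodule.smul_mem _ _ (Submodule.subset_span ⟨a, rfl⟩)
  exact h (FS.toF f)

lemma tr_single (g : Γ) (a : Γ ⧸ X.K Γ x) : tr g (single a) = single (g • a) := by
  classical
  apply FS.ext
  intro b
  rw [tr_apply]
  show Finsupp.single a (1 : ℂ) (g⁻¹ • b) = Finsupp.single (g • a) (1 : ℂ) b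
  rw [Finsupp.single_apply, Finsupp.single_apply]
  by_cases h : a = g⁻¹ • b
  · rw [if_pos h, if_pos (by rw [h, smul_inv_smul])]
  · rw [if_neg h, if_neg (by
      intro h1
      apply h
      rw [← h1, inv_smul_smul])]

theorem radial_main {I : Type} [Fintype I] (h : I → HeckeFn X Γ x) (c : I → ℂ)
    (hspec : ∀ η : ℝ, 0 < η → ∃ f : FS (Γ ⧸ X.K Γ x), f ≠ 0 ∧
      ∑ i, ‖sop (h i) (c i) f‖ ^ 2 ≤ η ^ 2 * ‖f‖ ^ 2) (ε : ℝ) (hε : 0 < ε) :
    ∃ f ∈ radial Γ x, f ≠ 0 ∧ ∑ i, ‖sop (h i) (c i) f‖ ^ 2 ≤ ε ^ 2 * ‖f‖ ^ 2 := by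
  by_contra hcon
  push Not at hcon
  set M : ℝ := ∑ i, ((h i).norm + ‖c i‖) ^ 2 + 1 with hM
  have hM0 : 0 < M := by
    have : 0 ≤ ∑ i, (((h i).norm : ℝ) + ‖c i‖) ^ 2 := Finset.sum_nonneg fun i _ => by positivity
    linarith
  have hbd : ∀ f : FS (Γ ⧸ X.K Γ x), ∑ i, ‖sop (h i) (c i) f‖ ^ 2 ≤ M * ‖f‖ ^ 2 := by
    intro f
    have h1 : ∑ i, ‖sop (h i) (c i) f‖ ^ 2 ≤ (∑ i, (((h i).norm : ℝ) + ‖c i‖) ^ 2) * ‖f‖ ^ 2 := by
      rw [Finset.sum_mul]
      refine Finset.sum_le_sum fun i _ => ?_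
      rw [← mul_pow]
      exact pow_le_pow_left₀ (norm_nonneg _) (sop_norm _ _ _) 2
    have h2 : (∑ i, (((h i).norm : ℝ) + ‖c i‖) ^ 2) * ‖f‖ ^ 2 ≤ M * ‖f‖ ^ 2 :=
      mul_le_mul_of_nonneg_right (by rw [hM]; linarith) (by positivity)
    exact h1.trans h2
  have hB : ∀ (g : Γ) (f : FS (Γ ⧸ X.K Γ x)),
      bigB (fun i => sop (h i) (c i)) (fun i => sop (h i).star ((starRingEnd ℂ) (c i))) (tr g f) =
      tr g (bigB (fun i => sop (h i) (c i)) (fun i => sop (h i).star ((starRingEnd ℂ) (c i))) f) := by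
    intro g f
    rw [bigB_apply, bigB_apply, map_sum]
    refine Finset.sum_congr rfl fun i _ => ?_
    rw [sop_tr, sop_tr]
  have key := abs_radial (fun i => sop (h i) (c i))
    (fun i => sop (h i).star ((starRingEnd ℂ) (c i))) (fun i f g => sop_adj _ _ f g) M hM0 hbd
    (radial Γ x) (by
      intro f hf k hk
      rw [← hB, hf k hk])
    (single : Γ ⧸ X.K Γ x → _) (single ((1 : Γ) : Γ ⧸ X.K Γ x)) (by
      intro k hk
      rw [tr_single]
      congr 1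
      show ((k * 1 : Γ) : Γ ⧸ X.K Γ x) = _
      rw [mul_one]
      apply Eq.symm
      rw [QuotientGroup.eq, inv_one, one_mul]
      exact hk)
    (by
      intro a
      refine ⟨tr a.out, tr_norm _, hB _, ?_⟩
      rw [tr_single]
      congr 1
      show a = ((a.out * 1 : Γ) : Γ ⧸ X.K Γ x)
      rw [mul_one, QuotientGroup.out_eq'])
    single_span ε hε (by
      intro f hf
      rcases eq_or_ne f 0 with h0 | h0
      · rw [h0, norm_zero]
        have : 0 ≤ ∑ i, ‖sop (h i) (c i) (0 : FS (Γ ⧸ X.K Γ x))‖ ^ 2 :=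
          Finset.sum_nonneg fun i _ => by positivity
        simpa using this
      · exact (hcon f hf h0).le)
  have hη : 0 < Real.sqrt (ε ^ 4 / (8 * M)) := Real.sqrt_pos.2 (by positivity)
  obtain ⟨f, hf0, hf⟩ := hspec _ hη
  rw [Real.sq_sqrt (by positivity)] at hf
  have h1 := (key f).trans hf
  have h2 : 0 < ‖f‖ ^ 2 := by
    have := norm_pos_iff.2 hf0
    positivity
  have h3 := le_of_mul_le_mul_right h1 h2
  have h4 : ε ^ 4 / (8 * M) < ε ^ 4 / (4 * M) := by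
    apply div_lt_div_of_pos_left (by positivity) (by positivity)
    linarith
  linarith

end Pool.Agent.Helper91.DE
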