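import Pool.Agent.Helper91.DE.Tens

/-! Approximate joint eigenfunctions orthogonal to the non-tempered part. -/

open scoped InnerProductSpace ENNReal NNReal
open MeasureTheory
open Pool.Agent.Helper80.AT

namespace Pool.Agent.Helper91.DE

section Hilbert

variable {H : Type*} [NormedAddCommGroup H] [InnerProductSpace ℂ H]

lemma pyth (W : Submodule ℂ H) [W.HasOrthogonalProjection] (y : H) :
    ‖y - W.starProjection y‖ ^ 2 = ‖y‖ ^ 2 - ‖W.starProjection y‖ ^ 2 := by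
  have h1 := W.sub_starProjection_mem_orthogonal y
  have h2 : ⟪W.starProjection y, y - W.starProjection y⟫_ℂ = 0 :=
    (Submodule.mem_orthogonal _ _).1 h1 _ (W.starProjection_apply_mem y)
  have h3 := norm_add_sq_eq_norm_sq_add_norm_sq_of_inner_eq_zero _ _ h2
  rw [add_sub_cancel] at h3
  nlinarith

lemma proj_small (W : Submodule ℂ H) (u : H) (C : ℝ) (hC : 0 ≤ C)
    (h : ∀ w ∈ W, ‖⟪w, u⟫_ℂ‖ ≤ C * ‖w‖ * ‖u‖) [W.topologicalClosure.HasOrthogonalProjection] :
    ‖W.topologicalClosure.starProjection u‖ ^ 2 ≤ C ^ 2 * ‖u‖ ^ 2 := by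
  have h' : ∀ w ∈ W.topologicalClosure, ‖⟪w, u⟫_ℂ‖ ≤ C * ‖w‖ * ‖u‖ := by
    intro w hw
    have hw' : w ∈ closure (W : Set H) := hw
    have hc : IsClosed {w : H | ‖⟪w, u⟫_ℂ‖ ≤ C * ‖w‖ * ‖u‖} :=
      isClosed_le (by fun_prop) (by fun_prop)
    exact closure_minimal (fun w hw => h w hw) hc hw'
  set p := W.topologicalClosure.starProjection u with hp
  have h1 := h' p (W.topologicalClosure.starProjection_apply_mem u)
  have h2 : ⟪p, u⟫_ℂ = ⟪p, p⟫_ℂ := by
    have h3 := W.topologicalClosure.sub_starProjection_mem_orthogonal u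
    have h4 := (Submodule.mem_orthogonal _ _).1 h3 p
      (W.topologicalClosure.starProjection_apply_mem u)
    rw [inner_sub_right, sub_eq_zero] at h4
    exact h4
  rw [h2, inner_self_eq_norm_sq_to_K] at h1
  have h5 : ‖p‖ ^ 2 ≤ C * ‖p‖ * ‖u‖ := by
    have e : ‖((‖p‖ : ℂ)) ^ 2‖ = ‖p‖ ^ 2 := by simp
    calc ‖p‖ ^ 2 = ‖((‖p‖ : ℂ)) ^ 2‖ := e.symm
      _ ≤ _ := h1
  have h6 : ‖p‖ ≤ C * ‖u‖ := by
    rcases (norm_nonneg p).eq_or_lt with h0 | h0
    · rw [← h0]; positivity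
    · have h7 : ‖p‖ * ‖p‖ ≤ (C * ‖u‖) * ‖p‖ := by nlinarith
      exact le_of_mul_le_mul_right h7 h0
  calc ‖p‖ ^ 2 ≤ (C * ‖u‖) ^ 2 := pow_le_pow_left₀ (norm_nonneg _) h6 2
    _ = _ := by ring

end Hilbert

variable {F : Type} [Field F] {X : Places F} {N : ℕ} {Γ : Subgroup (GL (Fin N) F)}

lemma hasSum_enn {Y : Type} {G : Y → ℂ} {a : ℝ} (h : HasSum (fun Q => ‖G Q‖ ^ 2) a) :
    ∑' Q, ‖G Q‖ₑ ^ 2 = ENNReal.ofReal a := by
  rw [← h.tsum_eq, ENNReal.ofReal_tsum_of_nonneg (fun _ => by positivity) h.summable]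
  refine tsum_congr fun Q => ?_
  rw [ENNReal.ofReal_pow (norm_nonneg _), ofReal_norm]

/-- the function on the set of classes corresponding to the product function -/
lemma exists_pair {P₀ : Bundle X Γ} {S : Finset X.V} {f : ∀ x : X.V, Γ ⧸ X.K Γ x → ℂ}
    {R : X.V → ℕ} (hb : ∀ x ∈ S, InBall (R x) (f x)) (ht : ∀ x ∈ S, Test (f x)) :
    ∃ u : L2 Γ (Bundle X Γ), Pair P₀ (∑ x ∈ S, X.deg x * R x) (tens P₀ S f) u ∧
      ∃ B : Finset (Classes X Γ), Near P₀ (∑ x ∈ S, X.deg x * R x) B ∧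
        ∀ b, b ∉ B → (u : Bun Γ (Bundle X Γ) → ℂ) b = 0 := by
  classical
  set r := ∑ x ∈ S, X.deg x * R x with hr
  set v := tens P₀ S f with hv
  have hsupp : ∀ Q, v Q ≠ 0 → X.dist P₀ Q ≤ r := fun Q hQ => tens_supp hb hQ
  have hLF : LF Γ v := fun P => ((mult_le P₀ r P).1).subset fun g hg => hsupp _ hg
  have hfin := tens_fin (P₀ := P₀) ht
  have hmem : MemLp (per Γ v) 2 (bunMeasure Γ (Bundle X Γ)) := by
    rw [memLp_iff]
    refine ne_top_of_le_ne_top ?_ (nsq_per_le hLF (autNum P₀ (2 * r)) fun P => ?_)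
    · refine ENNReal.mul_ne_top (ENNReal.natCast_ne_top _) ?_
      rw [tsum_eq_sum (s := hfin.toFinset) (by
        intro Q hQ
        have : v Q = 0 := by
          by_contra h
          exact hQ (by simpa using h)
        rw [this]
        simp)]
      exact ENNReal.sum_ne_top.2 fun Q _ => ENNReal.pow_ne_top enorm_ne_top
    · exact (Set.ncard_le_ncard (fun g hg => hsupp _ hg) (mult_le P₀ r P).1).trans
        (mult_le P₀ r P).2
  have hs : (Nat.card (MulAction.stabilizer Γ P₀) : ℂ) ≠ 0 := by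
    have : 0 < Nat.card (MulAction.stabilizer Γ P₀) := Nat.card_pos
    exact_mod_cast this.ne'
  set u : L2 Γ (Bundle X Γ) :=
    (1 / (Nat.card (MulAction.stabilizer Γ P₀) : ℂ)) • hmem.toLp _ with hu
  have hub : ∀ b, (u : Bun Γ (Bundle X Γ) → ℂ) b =
      1 / (Nat.card (MulAction.stabilizer Γ P₀) : ℂ) * per Γ v b := by
    intro b
    rw [hu, coe_smul, coe_toLp]
  refine ⟨u, ⟨hsupp, fun g hg Q => tens_inv hb g hg Q, ?_⟩,
    hfin.toFinset.image (cls Γ (Bundle X Γ)), ?_, ?_⟩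
  · intro b
    rw [hub]
    field_simp
  · intro b hb'
    obtain ⟨Q, hQ, rfl⟩ := Finset.mem_image.1 hb'
    exact ⟨Q, hsupp Q (by simpa using hQ), rfl⟩
  · intro b hb'
    rw [hub]
    have h1 : per Γ v b = 0 := by
      unfold per
      have : ∀ g : Γ, v (g • b.out) = 0 := by
        intro g
        by_contra h
        apply hb'
        refine Finset.mem_image.2 ⟨g • b.out, by simpa using h, ?_⟩
        rw [cls_smul, cls_out]
      simp [this]
    rw [h1, mul_zero]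

lemma autNum_rigid {P₀ : Bundle X Γ} {m n : ℕ} (hP : Rigid P₀ m) (hn : n ≤ m) :
    autNum P₀ n = autNum P₀ 0 := by
  unfold autNum
  congr 1
  ext g
  constructor
  · intro hg
    have h1 := hP g (le_trans hg hn)
    show X.dist (g • P₀) P₀ ≤ 0
    rw [h1, Helper80.AT.dist_self]
  · intro hg
    exact le_trans hg (Nat.zero_le n)

lemma up_stable {W : Submodule ℂ (Classes X Γ → ℂ)} {x : X.V} {I : Type} {h : I → HeckeFn X Γ x}
    (hW : StableAt W h) (i : I) : Stable (up W) (⟨x, h i⟩ : Hecke X Γ).op := by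
  constructor
  · intro u hu
    rw [mem_up, coe_op]
    exact (hW i _ hu).1
  · intro u hu
    rw [mem_up, coe_adjoint]
    exact (hW i _ hu).2

theorem tempered_main {I : Type} [Fintype I] {P₀ : Bundle X Γ} {m : ℕ} (hP : Rigid P₀ m)
    {W : Submodule ℂ (Classes X Γ → ℂ)} {J : Type} [Fintype J] {L : J → List (Hecke X Γ)} {D : ℕ}
    (hD : ∀ j, wordSize (L j) ≤ D) {A : ℝ} (hW : Bounded W L A) {n : ℕ}
    (ht : theta L A ^ n < 1) (S : Finset X.V) (h : ∀ x : X.V, I → HeckeFn X Γ x)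
    (c : X.V → I → ℂ) (hst : ∀ x ∈ S, StableAt W (h x)) (ε : X.V → ℝ) (R : X.V → ℕ)
    (hloc : ∀ x ∈ S, LocalEig (h x) (c x) (ε x) (R x))
    (hm1 : 2 * (∑ x ∈ S, X.deg x * R x + n * D) ≤ m)
    (hm2 : ∀ x ∈ S, ∀ i, 2 * (X.deg x * (h x i).rad + ∑ x ∈ S, X.deg x * R x) ≤ m) :
    ∃ w : Classes X Γ → ℂ, IsL2 w ∧ w ≠ 0 ∧ Orth W w ∧
      defect S h c w ≤ (∑ x ∈ S, ε x ^ 2) / (1 - theta L A ^ n) * sqNorm w := by
  classical
  set r := ∑ x ∈ S, X.deg x * R x with hr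
  have hex : ∀ x : X.V, ∃ f : Γ ⧸ X.K Γ x → ℂ,
      x ∈ S → Test f ∧ InBall (R x) f ∧ EigLe (h x) (c x) (ε x) f := by
    intro x
    by_cases hx : x ∈ S
    · obtain ⟨f, hf⟩ := hloc x hx
      exact ⟨f, fun _ => hf⟩
    · exact ⟨0, fun h => absurd h hx⟩
  choose f hf using hex
  obtain ⟨u, hpair, B, hB1, hB2⟩ := exists_pair (P₀ := P₀) (S := S) (f := f) (R := R)
    (fun x hx => (hf x hx).2.1) (fun x hx => (hf x hx).1)
  rw [← hr] at hpair hB1
  set v := tens P₀ S f with hv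
  set s := Nat.card (MulAction.stabilizer Γ P₀) with hs
  have hspos : (0 : ℝ) < s := by
    have : 0 < s := Nat.card_pos
    exact_mod_cast this
  have hθ : 0 ≤ theta L A := by
    unfold theta
    positivity
  have hθn : 0 ≤ theta L A ^ n := pow_nonneg hθ n
  -- norms
  have hnu : HasSum (fun Q => ‖v Q‖ ^ 2) (s * ‖u‖ ^ 2) :=
    hpair.norm fun g hg => hP g (by omega)
  have hu0 : 0 < ‖u‖ ^ 2 := by
    obtain ⟨Q, hQ⟩ := tens_nonzero (P₀ := P₀) (S := S) fun x hx => (hf x hx).1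
    have h1 : ‖v Q‖ ^ 2 ≤ s * ‖u‖ ^ 2 :=
      le_hasSum hnu Q fun Q' _ => by positivity
    have h2 : 0 < ‖v Q‖ ^ 2 := by
      have := norm_pos_iff.2 hQ
      positivity
    have h3 : 0 < s * ‖u‖ ^ 2 := lt_of_lt_of_le h2 h1
    exact (mul_pos_iff_of_pos_left hspos).1 h3
  let T : ∀ x : X.V, I → Hecke X Γ := fun x i => ⟨x, h x i⟩
  have hloc2 : ∀ x ∈ S, ∑ i, ‖(T x i).op u - c x i • u‖ ^ 2 ≤ ε x ^ 2 * ‖u‖ ^ 2 := by
    intro x hx
    have hp : ∀ i, Pair P₀ (X.deg x * (h x i).rad + r)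
        ((heckeKer (h x i)).act v + (-c x i) • v) ((T x i).op u + (-c x i) • u) := by
      intro i
      exact (hpair.op (T x i)).add ((hpair.smul (-c x i)).mono (by omega))
    have hn : ∀ i, ∑' Q, ‖(heckeKer (h x i)).act v Q - c x i * v Q‖ₑ ^ 2 =
        ENNReal.ofReal (s * ‖(T x i).op u - c x i • u‖ ^ 2) := by
      intro i
      have h1 := (hp i).norm fun g hg => hP g (hg.trans (hm2 x hx i))
      rw [← hs] at h1
      have e1 : (T x i).op u + (-c x i) • u = (T x i).op u - c x i • u := by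
        rw [neg_smul, sub_eq_add_neg]
      rw [e1] at h1
      rw [← hasSum_enn h1]
      refine tsum_congr fun Q => ?_
      congr 2
      show _ = (heckeKer (h x i)).act v Q + -c x i * v Q
      ring
    have hg := enn_global (P₀ := P₀) (S := S) (f := f) hx (hf x hx).1 (hf x hx).2.2
    rw [← hv] at hg
    simp only [hn] at hg
    rw [hasSum_enn hnu, ← ENNReal.ofReal_sum_of_nonneg (fun _ _ => by positivity),
      ← ENNReal.ofReal_mul (by positivity), ENNReal.ofReal_le_ofReal_iff (by positivity),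
      ← Finset.mul_sum] at hg
    have h2 : s * ∑ i, ‖(T x i).op u - c x i • u‖ ^ 2 ≤ s * (ε x ^ 2 * ‖u‖ ^ 2) := by
      refine hg.trans (le_of_eq ?_)
      ring
    exact le_of_mul_le_mul_left h2 hspos
  -- the projection
  set W' := (up W).topologicalClosure with hW'
  have : CompleteSpace W' := (up W).isClosed_topologicalClosure.completeSpace_coe
  have hproj : ‖W'.starProjection u‖ ^ 2 ≤ theta L A ^ n * ‖u‖ ^ 2 := by
    have h1 := proj_small (up W) u (Real.sqrt (theta L A ^ n)) (Real.sqrt_nonneg _) (by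
      intro w hw
      have h2 : ⟪w, u⟫_ℂ = ⟪cut B w, u⟫_ℂ := by
        rw [L2.inner_def, L2.inner_def]
        congr 1
        funext b
        rw [cut_apply]
        split_ifs with hb
        · rfl
        · rw [hB2 b hb]
          simp
      have h3 : ‖cut B w‖ ^ 2 ≤ theta L A ^ n * ‖w‖ ^ 2 := by
        rw [cut_norm_sq]
        have h4 := (density_main W L D hD A hW n).1 P₀ r B hB1 _ hw
        have h5 : (autNum P₀ 0 : ℝ) ≠ 0 := by
          rw [autNum_zero]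
          exact hspos.ne'
        rw [autNum_rigid hP hm1, div_self h5, one_mul] at h4
        have h6 : sqNorm (w : Bun Γ (Bundle X Γ) → ℂ) = ‖w‖ ^ 2 := nrm_coe w
        have h7 : massOn B (w : Bun Γ (Bundle X Γ) → ℂ) ≤
            theta L A ^ n * sqNorm (w : Bun Γ (Bundle X Γ) → ℂ) := h4
        rw [h6] at h7
        exact h7
      have h4 : ‖cut B w‖ ≤ Real.sqrt (theta L A ^ n) * ‖w‖ := by
        refine (pow_le_pow_iff_left₀ (norm_nonneg _) (by positivity) two_ne_zero).1 ?_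
        rw [mul_pow, Real.sq_sqrt hθn]
        exact h3
      rw [h2]
      exact (norm_inner_le_norm _ _).trans (mul_le_mul_of_nonneg_right h4 (norm_nonneg _)))
    rw [Real.sq_sqrt hθn] at h1
    exact h1
  set w : L2 Γ (Bundle X Γ) := u - W'.starProjection u with hw
  have hwn : ‖w‖ ^ 2 = ‖u‖ ^ 2 - ‖W'.starProjection u‖ ^ 2 := pyth W' u
  have h1θ : 0 < 1 - theta L A ^ n := by linarith
  have hwu : (1 - theta L A ^ n) * ‖u‖ ^ 2 ≤ ‖w‖ ^ 2 := by
    rw [hwn]
    linarith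
  have hw0 : 0 < ‖w‖ ^ 2 := lt_of_lt_of_le (mul_pos h1θ hu0) hwu
  have hTw : ∀ x ∈ S, ∀ i, ‖(T x i).op w - c x i • w‖ ^ 2 ≤ ‖(T x i).op u - c x i • u‖ ^ 2 := by
    intro x hx i
    have hst' := (up_stable (hst x hx) i).clos
    have e1 : (T x i).op w - c x i • w = ((T x i).op u - c x i • u) -
        W'.starProjection ((T x i).op u - c x i • u) := by
      rw [hw, map_sub, map_sub, map_smul]
      have e2 : W'.starProjection ((T x i).op u) = (T x i).op (W'.starProjection u) :=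
        hst'.comm u
      rw [e2, smul_sub]
      abel
    rw [e1, pyth]
    have : 0 ≤ ‖W'.starProjection ((T x i).op u - c x i • u)‖ ^ 2 := by positivity
    linarith
  refine ⟨(w : Bun Γ (Bundle X Γ) → ℂ), isL2_coe w, ?_, ?_, ?_⟩
  · intro h0
    have h1 : w = 0 := by
      apply coe_eq
      intro b
      rw [h0]
      exact (congrFun (map_zero (coeLin (G := Γ) (Y := Bundle X Γ))) b).symm
    rw [h1, norm_zero] at hw0
    simp at hw0
  · intro w' hw'
    set w1 : L2 Γ (Bundle X Γ) := (hW.l2 w' hw').memLp.toLp w' with hw1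
    have hcoe : (w1 : Bun Γ (Bundle X Γ) → ℂ) = w' := coe_toLp' (hW.l2 w' hw')
    have hmem : w1 ∈ W' := (up W).le_topologicalClosure (by rw [mem_up, hcoe]; exact hw')
    have h1 := W'.sub_starProjection_mem_orthogonal u
    have h2 : ⟪w1, w⟫_ℂ = 0 := (Submodule.mem_orthogonal _ _).1 h1 _ hmem
    have h3 : ⟪w, w1⟫_ℂ = 0 := by
      rw [← inner_conj_symm, h2, map_zero]
    have h4 := norm_add_sq_eq_norm_sq_add_norm_sq_of_inner_eq_zero _ _ h3
    have e1 : ((w + w1 : L2 Γ (Bundle X Γ)) : Bun Γ (Bundle X Γ) → ℂ) =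
        (w : Bun Γ (Bundle X Γ) → ℂ) + w' := by
      rw [← hcoe]
      funext b
      exact coe_add w w1 b
    have e2 : sqNorm ((w : Bun Γ (Bundle X Γ) → ℂ) + w') = ‖w + w1‖ ^ 2 := by
      rw [← e1]
      exact nrm_coe _
    have e3 : sqNorm (w : Bun Γ (Bundle X Γ) → ℂ) = ‖w‖ ^ 2 := nrm_coe _
    have e4 : sqNorm w' = ‖w1‖ ^ 2 := by
      rw [← hcoe]
      exact nrm_coe _
    rw [e2, e3, e4]
    nlinarith
  · have e1 : ∀ x i, sqNorm ((⟨x, h x i⟩ : Hecke X Γ).fnOp (w : Bun Γ (Bundle X Γ) → ℂ) -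
        c x i • (w : Bun Γ (Bundle X Γ) → ℂ)) = ‖(T x i).op w - c x i • w‖ ^ 2 := by
      intro x i
      rw [← nrm_coe]
      unfold sqNorm
      congr 1
      funext b
      rw [coe_sub, coe_smul, coe_op]
      rfl
    have e3 : sqNorm (w : Bun Γ (Bundle X Γ) → ℂ) = ‖w‖ ^ 2 := nrm_coe _
    unfold defect
    simp only [e1]
    rw [e3]
    have h1 : ∑ x ∈ S, ∑ i, ‖(T x i).op w - c x i • w‖ ^ 2 ≤ (∑ x ∈ S, ε x ^ 2) * ‖u‖ ^ 2 := by
      rw [Finset.sum_mul]
      refine Finset.sum_le_sum fun x hx => ?_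
      exact (Finset.sum_le_sum fun i _ => hTw x hx i).trans (hloc2 x hx)
    refine h1.trans ?_
    rw [div_mul_eq_mul_div, le_div_iff₀ h1θ]
    have h2 : 0 ≤ ∑ x ∈ S, ε x ^ 2 := Finset.sum_nonneg fun x _ => sq_nonneg _
    calc (∑ x ∈ S, ε x ^ 2) * ‖u‖ ^ 2 * (1 - theta L A ^ n)
        = (∑ x ∈ S, ε x ^ 2) * ((1 - theta L A ^ n) * ‖u‖ ^ 2) := by ring
      _ ≤ _ := mul_le_mul_of_nonneg_left hwu h2

end Pool.Agent.Helper91.DE
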