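import Pool.Agent.Helper91.DE.Conv

/-! Local approximate eigenfunctions. -/

open scoped InnerProductSpace ENNReal NNReal
open Pool.Agent.Helper80.AT

namespace Pool.Agent.Helper91.DE

variable {F : Type} [Field F] {X : Places F} {N : ℕ} {Γ : Subgroup (GL (Fin N) F)} {x : X.V}

/-- The squared norm of a function on Γ/K_x. -/
noncomputable def sqLoc (f : Γ ⧸ X.K Γ x → ℂ) : ℝ := ∑' a, ‖f a‖ ^ 2

/-- f is not zero and vanishes outside a finite set. -/
structure Test (f : Γ ⧸ X.K Γ x → ℂ) : Prop where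
  fin : {a | f a ≠ 0}.Finite
  ne : f ≠ 0

/-- f is invariant under K_x and vanishes outside the ball of radius R about the base point. -/
structure InBall (R : ℕ) (f : Γ ⧸ X.K Γ x → ℂ) : Prop where
  inv : ∀ k ∈ X.K Γ x, ∀ a, f (k • a) = f a
  supp : ∀ a, f a ≠ 0 → X.d x ((1 : Γ) : Γ ⧸ X.K Γ x) a ≤ R

/-- f is an approximate joint eigenfunction of the convolution operators given by the h_i with the
eigenvalues c_i: the sum of |h_i * f - c_i f|² is at most ε²|f|². -/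
def EigLe {I : Type} [Fintype I] (h : I → HeckeFn X Γ x) (c : I → ℂ) (ε : ℝ)
    (f : Γ ⧸ X.K Γ x → ℂ) : Prop :=
  ∑ i, sqLoc (fun a => conv (h i) f a - c i * f a) ≤ ε ^ 2 * sqLoc f

/-- (c_i) is in the joint approximate point spectrum of the convolution operators given by the h_i
on l2(Γ/K_x). -/
def JointSpec {I : Type} [Fintype I] (h : I → HeckeFn X Γ x) (c : I → ℂ) : Prop :=
  ∀ ε : ℝ, 0 < ε → ∃ f, Test f ∧ EigLe h c ε f

/-- There is a K_x-invariant approximate joint eigenfunction with the error ε in the ball of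
radius R. -/
def LocalEig {I : Type} [Fintype I] (h : I → HeckeFn X Γ x) (c : I → ℂ) (ε : ℝ) (R : ℕ) : Prop :=
  ∃ f, Test f ∧ InBall R f ∧ EigLe h c ε f

/-- the finitely supported function of a function with finite support -/
noncomputable def mk (f : Γ ⧸ X.K Γ x → ℂ) (hf : {a | f a ≠ 0}.Finite) : FS (Γ ⧸ X.K Γ x) :=
  FS.toF.symm (Finsupp.ofSupportFinite f hf)

lemma toF_mk (f : Γ ⧸ X.K Γ x → ℂ) (hf : {a | f a ≠ 0}.Finite) : ⇑(FS.toF (mk f hf)) = f := rfl

lemma sqLoc_toF (f : FS (Γ ⧸ X.K Γ x)) : sqLoc (⇑(FS.toF f)) = ‖f‖ ^ 2 := by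
  unfold sqLoc
  rw [norm_sq_eq f _ (Finset.Subset.refl _), tsum_eq_sum]
  intro a ha
  rw [Finsupp.notMem_support_iff.1 ha, norm_zero, zero_pow two_ne_zero]

lemma sqLoc_sop (h : HeckeFn X Γ x) (c : ℂ) (f : FS (Γ ⧸ X.K Γ x)) :
    sqLoc (fun a => conv h (FS.toF f) a - c * FS.toF f a) = ‖sop h c f‖ ^ 2 := by
  rw [← sqLoc_toF]
  congr 1
  funext a
  rw [sop_val]

lemma eigLe_iff {I : Type} [Fintype I] (h : I → HeckeFn X Γ x) (c : I → ℂ) (ε : ℝ)
    (f : FS (Γ ⧸ X.K Γ x)) :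
    EigLe h c ε (⇑(FS.toF f)) ↔ ∑ i, ‖sop (h i) (c i) f‖ ^ 2 ≤ ε ^ 2 * ‖f‖ ^ 2 := by
  unfold EigLe
  rw [sqLoc_toF]
  simp only [sqLoc_sop]

lemma toF_ne (f : FS (Γ ⧸ X.K Γ x)) : (⇑(FS.toF f) ≠ 0) ↔ f ≠ 0 := by
  rw [not_iff_not]
  constructor
  · intro h
    apply FS.ext
    intro a
    rw [congrFun h a]
    rfl
  · intro h
    rw [h]
    rfl

/-- Every point of the joint approximate point spectrum has K_x-invariant approximate
eigenfunctions with finite support. -/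
theorem jointSpec_iff {I : Type} [Fintype I] (h : I → HeckeFn X Γ x) (c : I → ℂ) :
    JointSpec h c ↔ ∀ ε : ℝ, 0 < ε → ∃ R, LocalEig h c ε R := by
  constructor
  · intro hs ε hε
    obtain ⟨f, hfr, hf0, hf⟩ := radial_main h c (by
      intro η hη
      obtain ⟨f, hf1, hf2⟩ := hs η hη
      refine ⟨mk f hf1.fin, (toF_ne _).1 hf1.ne, ?_⟩
      rw [← eigLe_iff, toF_mk]
      exact hf2) ε hε
    have hfin : {a | FS.toF f a ≠ 0}.Finite := by
      refine (Finset.finite_toSet (FS.toF f).support).subset ?_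
      intro a ha
      exact Finsupp.mem_support_iff.2 ha
    refine ⟨(FS.toF f).support.sup fun a => X.d x ((1 : Γ) : Γ ⧸ X.K Γ x) a, ⇑(FS.toF f),
      ⟨hfin, (toF_ne f).2 hf0⟩, ⟨?_, ?_⟩, (eigLe_iff _ _ _ _).2 hf⟩
    · intro k hk a
      have h1 := (mem_radial f).1 hfr k⁻¹ (inv_mem hk)
      have h2 : FS.toF (tr k⁻¹ f) a = FS.toF f a := by rw [h1]
      rw [tr_apply, inv_inv] at h2
      exact h2
    · intro a ha
      exact Finset.le_sup (f := fun a => X.d x ((1 : Γ) : Γ ⧸ X.K Γ x) a)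
        (Finsupp.mem_support_iff.2 ha)
  · intro hs ε hε
    obtain ⟨R, f, hf1, _, hf3⟩ := hs ε hε
    exact ⟨f, hf1, hf3⟩

/-- The space W is orthogonal to w: |w + w'|² = |w|² + |w'|² for all w' in W. -/
def Orth (W : Submodule ℂ (Classes X Γ → ℂ)) (w : Classes X Γ → ℂ) : Prop :=
  ∀ w' ∈ W, sqNorm (w + w') = sqNorm w + sqNorm w'

/-- W is stable under the Hecke operators at x given by the h_i and under their adjoints. -/
def StableAt {I : Type} (W : Submodule ℂ (Classes X Γ → ℂ)) (h : I → HeckeFn X Γ x) : Prop :=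
  ∀ i, ∀ w ∈ W, (⟨x, h i⟩ : Hecke X Γ).fnOp w ∈ W ∧ (⟨x, h i⟩ : Hecke X Γ).star.fnOp w ∈ W

/-- The sum over x in S and over i of |T w - c w|², T the Hecke operator at x given by the i-th
function at x, c the i-th number at x. -/
noncomputable def defect {I : Type} [Fintype I] (S : Finset X.V) (h : ∀ x : X.V, I → HeckeFn X Γ x)
    (c : X.V → I → ℂ) (w : Classes X Γ → ℂ) : ℝ :=
  ∑ x ∈ S, ∑ i, sqNorm ((⟨x, h x i⟩ : Hecke X Γ).fnOp w - c x i • w)

end Pool.Agent.Helper91.DE
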