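import Pool.Agent.Helper91.DE.Stmt

/-! Product functions on the set of bundles. -/

open scoped InnerProductSpace ENNReal NNReal
open Pool.Agent.Helper80.AT

namespace Pool.Agent.Helper91.DE

variable {F : Type} [Field F] {X : Places F} {N : ℕ} {Γ : Subgroup (GL (Fin N) F)}

section

variable (P₀ : Bundle X Γ) (S : Finset X.V) (f : ∀ x : X.V, Γ ⧸ X.K Γ x → ℂ)

open Classical in
/-- the product function -/
noncomputable def tens (P : Bundle X Γ) : ℂ :=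
  if ∀ v, v ∉ S → P.c v = P₀.c v then ∏ x ∈ S, f x ((P₀.c x).out⁻¹ • P.c x) else 0

open Classical in
/-- the product function without the factor at x -/
noncomputable def rest (x : X.V) (P : Bundle X Γ) : ℂ :=
  if ∀ v, v ∉ S → P.c v = P₀.c v then ∏ y ∈ S.erase x, f y ((P₀.c y).out⁻¹ • P.c y) else 0

lemma tens_upd {x : X.V} (hx : x ∈ S) (P : Bundle X Γ) (a : Γ ⧸ X.K Γ x) :
    tens P₀ S f (upd P a) = rest P₀ S f x P * f x ((P₀.c x).out⁻¹ • a) := by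
  classical
  unfold tens rest
  have e : (∀ v, v ∉ S → (upd P a).c v = P₀.c v) ↔ ∀ v, v ∉ S → P.c v = P₀.c v := by
    constructor
    · intro h v hv
      rw [← h v hv, upd_ne]
      intro hvx
      exact hv (hvx ▸ hx)
    · intro h v hv
      rw [← h v hv, upd_ne]
      intro hvx
      exact hv (hvx ▸ hx)
  by_cases h : ∀ v, v ∉ S → P.c v = P₀.c v
  · rw [if_pos h, if_pos (e.2 h), ← Finset.mul_prod_erase S _ hx, upd_x, mul_comm]
    congr 1
    refine Finset.prod_congr rfl fun y hy => ?_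
    rw [upd_ne _ _ (Finset.ne_of_mem_erase hy)]
  · rw [if_neg h, if_neg fun h' => h (e.1 h'), zero_mul]

lemma act_tens {x : X.V} (hx : x ∈ S) (h : HeckeFn X Γ x) (P : Bundle X Γ) (a : Γ ⧸ X.K Γ x) :
    (heckeKer h).act (tens P₀ S f) (upd P a) =
      rest P₀ S f x P * conv h (f x) ((P₀.c x).out⁻¹ • a) := by
  rw [act_upd]
  simp only [tens_upd P₀ S f hx]
  unfold conv
  symm
  rw [← finsum_comp_equiv (MulAction.toPerm (P₀.c x).out⁻¹), mul_finsum]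
  refine finsum_congr fun b => ?_
  rw [MulAction.toPerm_apply, h_smul]
  ring

lemma sq_fact {x : X.V} (G : Bundle X Γ → ℂ) (φ : Γ ⧸ X.K Γ x → ℂ)
    (hG : ∀ P a, G (upd P a) = rest P₀ S f x P * φ ((P₀.c x).out⁻¹ • a)) :
    ∑' Q, ‖G Q‖ₑ ^ 2 =
      (∑' P : {P : Bundle X Γ // P.c x = ((1 : Γ) : Γ ⧸ X.K Γ x)}, ‖rest P₀ S f x P.1‖ₑ ^ 2) *
        ∑' a, ‖φ a‖ₑ ^ 2 := by
  rw [← (splitEquiv x).symm.tsum_eq]
  have e1 : ∑' c : (Σ _ : {P : Bundle X Γ // P.c x = ((1 : Γ) : Γ ⧸ X.K Γ x)}, Γ ⧸ X.K Γ x),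
      ‖G ((splitEquiv x).symm c)‖ₑ ^ 2 =
      ∑' P : {P : Bundle X Γ // P.c x = ((1 : Γ) : Γ ⧸ X.K Γ x)}, ∑' a : Γ ⧸ X.K Γ x,
        ‖G (upd P.1 a)‖ₑ ^ 2 :=
    ENNReal.tsum_sigma (fun (P : {P : Bundle X Γ // P.c x = ((1 : Γ) : Γ ⧸ X.K Γ x)})
      (a : Γ ⧸ X.K Γ x) => ‖G (upd P.1 a)‖ₑ ^ 2)
  rw [e1, ← ENNReal.tsum_mul_right]
  refine tsum_congr fun P => ?_
  rw [← ENNReal.tsum_mul_left, ← (MulAction.toPerm (P₀.c x).out⁻¹).tsum_eq
    (fun a => ‖rest P₀ S f x P.1‖ₑ ^ 2 * ‖φ a‖ₑ ^ 2)]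
  refine tsum_congr fun a => ?_
  rw [hG, enorm_mul, mul_pow, MulAction.toPerm_apply]

end

variable {P₀ : Bundle X Γ} {S : Finset X.V} {f : ∀ x : X.V, Γ ⧸ X.K Γ x → ℂ}

lemma base_smul (P : Bundle X Γ) (x : X.V) :
    (P.c x).out • (((1 : Γ) : Γ ⧸ X.K Γ x)) = P.c x := by
  show (((P.c x).out * 1 : Γ) : Γ ⧸ X.K Γ x) = P.c x
  rw [mul_one, QuotientGroup.out_eq']

lemma conj_mem {g : Γ} (hg : g • P₀ = P₀) (x : X.V) :
    (P₀.c x).out⁻¹ * g * (P₀.c x).out ∈ X.K Γ x := by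
  have h1 : g • P₀.c x = P₀.c x := by rw [← Helper80.AT.smul_apply, hg]
  have h2 : (((P₀.c x).out : Γ) : Γ ⧸ X.K Γ x) = ((g * (P₀.c x).out : Γ) : Γ ⧸ X.K Γ x) := by
    rw [QuotientGroup.out_eq']
    conv_lhs => rw [← h1]
    conv_lhs => rw [← QuotientGroup.out_eq' (P₀.c x)]
    rfl
  have h3 := QuotientGroup.eq.1 h2
  rwa [← mul_assoc] at h3

lemma tens_inv {R : X.V → ℕ} (hf : ∀ x ∈ S, InBall (R x) (f x)) (g : Γ)
    (hg : g ∈ MulAction.stabilizer Γ P₀) (P : Bundle X Γ) :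
    tens P₀ S f (g • P) = tens P₀ S f P := by
  classical
  have hg' : g • P₀ = P₀ := hg
  have hc : ∀ v, g • P₀.c v = P₀.c v := fun v => by rw [← Helper80.AT.smul_apply, hg']
  unfold tens
  have e : (∀ v, v ∉ S → (g • P).c v = P₀.c v) ↔ ∀ v, v ∉ S → P.c v = P₀.c v := by
    constructor
    · intro h v hv
      have h1 := h v hv
      rw [Helper80.AT.smul_apply] at h1
      conv_rhs at h1 => rw [← hc v]
      exact smul_left_cancel g h1
    · intro h v hv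
      rw [Helper80.AT.smul_apply, h v hv, hc v]
  by_cases h : ∀ v, v ∉ S → P.c v = P₀.c v
  · rw [if_pos h, if_pos (e.2 h)]
    refine Finset.prod_congr rfl fun x hx => ?_
    rw [Helper80.AT.smul_apply]
    have e1 : (P₀.c x).out⁻¹ • g • P.c x =
        ((P₀.c x).out⁻¹ * g * (P₀.c x).out) • ((P₀.c x).out⁻¹ • P.c x) := by
      rw [smul_smul, smul_smul]
      congr 1
      group
    rw [e1]
    exact (hf x hx).inv _ (conj_mem hg' x) _
  · rw [if_neg h, if_neg fun h' => h (e.1 h')]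

lemma tens_ne {P : Bundle X Γ} (h : tens P₀ S f P ≠ 0) :
    (∀ v, v ∉ S → P.c v = P₀.c v) ∧ ∀ x ∈ S, f x ((P₀.c x).out⁻¹ • P.c x) ≠ 0 := by
  classical
  unfold tens at h
  by_cases h1 : ∀ v, v ∉ S → P.c v = P₀.c v
  · rw [if_pos h1] at h
    exact ⟨h1, fun x hx => Finset.prod_ne_zero_iff.1 h x hx⟩
  · rw [if_neg h1] at h
    exact absurd rfl h

lemma tens_supp {R : X.V → ℕ} (hf : ∀ x ∈ S, InBall (R x) (f x)) {P : Bundle X Γ}
    (h : tens P₀ S f P ≠ 0) : X.dist P₀ P ≤ ∑ x ∈ S, X.deg x * R x := by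
  classical
  obtain ⟨h1, h2⟩ := tens_ne h
  let D : X.V →₀ ℕ := Finsupp.onFinset S (fun v => if v ∈ S then R v else 0) (by
    intro v hv
    by_contra h
    simp [h] at hv)
  refine (dist_le_of X P₀ P D ?_).trans ?_
  · intro v
    show _ ≤ if v ∈ S then R v else 0
    by_cases hv : v ∈ S
    · rw [if_pos hv]
      have h3 := (hf v hv).supp _ (h2 v hv)
      rw [← d_smul X v (P₀.c v).out, base_smul, smul_inv_smul] at h3
      exact h3
    · rw [if_neg hv, h1 v hv, d_self]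
  · unfold ddeg
    rw [Finsupp.sum_of_support_subset D (s := S) Finsupp.support_onFinset_subset _ (by simp)]
    refine le_of_eq (Finset.sum_congr rfl fun v hv => ?_)
    show X.deg v * (if v ∈ S then R v else 0) = _
    rw [if_pos hv]

lemma tens_fin (hf : ∀ x ∈ S, Test (f x)) : {P | tens P₀ S f P ≠ 0}.Finite := by
  classical
  let φ : Bundle X Γ → (∀ x : S, Γ ⧸ X.K Γ x.1) := fun P x => P.c x.1
  have hinj : Set.InjOn φ {P | tens P₀ S f P ≠ 0} := by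
    intro P hP Q hQ hPQ
    apply Bundle.ext
    funext v
    by_cases hv : v ∈ S
    · exact congrFun hPQ ⟨v, hv⟩
    · rw [(tens_ne hP).1 v hv, (tens_ne hQ).1 v hv]
  refine Set.Finite.of_finite_image ?_ hinj
  refine (Set.Finite.pi' (fun x : S => ((hf x.1 x.2).fin.image fun a => (P₀.c x.1).out • a))).subset ?_
  rintro _ ⟨P, hP, rfl⟩ x
  exact ⟨(P₀.c x.1).out⁻¹ • P.c x.1, (tens_ne hP).2 x.1 x.2, smul_inv_smul _ _⟩

lemma tens_nonzero (hf : ∀ x ∈ S, Test (f x)) : ∃ P, tens P₀ S f P ≠ 0 := by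
  classical
  have hex : ∀ x : X.V, ∃ a : Γ ⧸ X.K Γ x, x ∈ S → f x a ≠ 0 := by
    intro x
    by_cases hx : x ∈ S
    · have h := (hf x hx).ne
      obtain ⟨a, ha⟩ := Function.ne_iff.1 h
      exact ⟨a, fun _ => ha⟩
    · exact ⟨((1 : Γ) : Γ ⧸ X.K Γ x), fun h => absurd h hx⟩
  choose a ha using hex
  let P : Bundle X Γ := ⟨fun v => if v ∈ S then (P₀.c v).out • a v else P₀.c v, by
    refine (P₀.fin.union (Finset.finite_toSet S)).subset ?_
    intro v hv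
    by_cases h : v ∈ S
    · exact Or.inr h
    · left
      simp only [Set.mem_ofPred_eq, if_neg h] at hv
      exact hv⟩
  refine ⟨P, ?_⟩
  unfold tens
  rw [if_pos (by
    intro v hv
    show (if v ∈ S then (P₀.c v).out • a v else P₀.c v) = P₀.c v
    rw [if_neg hv])]
  rw [Finset.prod_ne_zero_iff]
  intro x hx
  have e : P.c x = (P₀.c x).out • a x := by
    show (if x ∈ S then (P₀.c x).out • a x else P₀.c x) = _
    rw [if_pos hx]
  rw [e, inv_smul_smul]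
  exact ha x hx

/-- the local inequality, in the extended reals -/
lemma enn_local {x : X.V} {I : Type} [Fintype I] {h : I → HeckeFn X Γ x} {c : I → ℂ} {ε : ℝ}
    {φ : Γ ⧸ X.K Γ x → ℂ} (ht : Test φ) (he : EigLe h c ε φ) :
    ∑ i, ∑' a, ‖conv (h i) φ a - c i * φ a‖ₑ ^ 2 ≤ ENNReal.ofReal (ε ^ 2) * ∑' a, ‖φ a‖ₑ ^ 2 := by
  have key : ∀ g : FS (Γ ⧸ X.K Γ x), ∑' a, ‖FS.toF g a‖ₑ ^ 2 = ENNReal.ofReal (‖g‖ ^ 2) := by
    intro g
    rw [tsum_eq_sum (s := (FS.toF g).support) (by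
      intro a ha
      rw [Finsupp.notMem_support_iff.1 ha]
      simp), norm_sq_eq g _ (Finset.Subset.refl _),
      ENNReal.ofReal_sum_of_nonneg (fun _ _ => by positivity)]
    refine Finset.sum_congr rfl fun a _ => ?_
    rw [ENNReal.ofReal_pow (norm_nonneg _), ofReal_norm]
  have e1 : ∀ i, ∑' a, ‖conv (h i) φ a - c i * φ a‖ₑ ^ 2 =
      ENNReal.ofReal (‖sop (h i) (c i) (mk φ ht.fin)‖ ^ 2) := by
    intro i
    rw [← key]
    refine tsum_congr fun a => ?_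
    rw [sop_val, toF_mk]
  have e2 : ∑' a, ‖φ a‖ₑ ^ 2 = ENNReal.ofReal (‖mk φ ht.fin‖ ^ 2) := by
    rw [← key, toF_mk]
  rw [e2, ← ENNReal.ofReal_mul (by positivity)]
  simp only [e1]
  rw [← ENNReal.ofReal_sum_of_nonneg (fun _ _ => by positivity)]
  apply ENNReal.ofReal_le_ofReal
  rw [← eigLe_iff, toF_mk]
  exact he

/-- the global inequality on the set of bundles -/
lemma enn_global {x : X.V} (hx : x ∈ S) {I : Type} [Fintype I] {h : I → HeckeFn X Γ x}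
    {c : I → ℂ} {ε : ℝ} (ht : Test (f x)) (he : EigLe h c ε (f x)) :
    ∑ i, ∑' Q, ‖(heckeKer (h i)).act (tens P₀ S f) Q - c i * tens P₀ S f Q‖ₑ ^ 2 ≤
      ENNReal.ofReal (ε ^ 2) * ∑' Q, ‖tens P₀ S f Q‖ₑ ^ 2 := by
  have e1 : ∀ i, ∑' Q, ‖(heckeKer (h i)).act (tens P₀ S f) Q - c i * tens P₀ S f Q‖ₑ ^ 2 =
      (∑' P : {P : Bundle X Γ // P.c x = ((1 : Γ) : Γ ⧸ X.K Γ x)}, ‖rest P₀ S f x P.1‖ₑ ^ 2) *
        ∑' a, ‖conv (h i) (f x) a - c i * f x a‖ₑ ^ 2 := by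
    intro i
    refine sq_fact P₀ S f (fun Q => (heckeKer (h i)).act (tens P₀ S f) Q - c i * tens P₀ S f Q)
      (fun a => conv (h i) (f x) a - c i * f x a) ?_
    intro P a
    rw [act_tens P₀ S f hx, tens_upd P₀ S f hx]
    ring
  have e2 : ∑' Q, ‖tens P₀ S f Q‖ₑ ^ 2 =
      (∑' P : {P : Bundle X Γ // P.c x = ((1 : Γ) : Γ ⧸ X.K Γ x)}, ‖rest P₀ S f x P.1‖ₑ ^ 2) *
        ∑' a, ‖f x a‖ₑ ^ 2 :=
    sq_fact P₀ S f (tens P₀ S f) (f x) fun P a => tens_upd P₀ S f hx P a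
  simp only [e1]
  rw [e2, ← Finset.mul_sum, mul_left_comm]
  gcongr
  exact enn_local ht he

end Pool.Agent.Helper91.DE
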